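import Mathlib
import Pool.Agent.Helper8.LK.Defs
import Pool.Agent.Helper7.LKX.DefsX
import Pool.Agent.Helper7.LKX.SgnX
import Pool.Agent.Helper7.LKX.ArbLB
import Pool.Agent.Helper93.LK.Upper

/-!
# Exact Triangle with partly seen weights: the exponents
-/

set_option autoImplicit false

namespace Pool.Agent.Helper36.CR

open Filter Topology
open Pool.Agent.Helper22.ETModel Pool.Agent.Helper8.LK Pool.Agent.Helper7.LK
  Pool.Agent.Helper7.LKX Pool.Agent.Helper93.LK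

/-- Every value query is a polynomial of degree at most `Δ` in all the weights. Every sign query is
an integer affine form in at most 20 weights, with coefficients and constant at most `n ^ 8`, which
is not determined by the triangle sums (`Moves`). There is no condition on the inspected bits: a bit
of a weight is an arbitrary `{0,1}`-valued function of this weight. -/
def LowDegree {n L R : ℕ} (A : LAlg n L R) (Δ : ℝ) : Prop :=
  (∀ fl ρ ans f, A.next fl ρ ans = Act.query (Query.value f) → (f.totalDegree : ℝ) ≤ Δ) ∧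
  ∀ fl ρ ans a x, A.next fl ρ ans = Act.query (Query.sign a x) → SparseOK n 20 8 a x ∧ Moves fl a

/-- powers of the logarithm are small -/
lemma ev_log (C γ : ℝ) (hγ : 0 < γ) (k : ℕ) :
    ∀ᶠ n : ℕ in atTop, C * (Real.logb 2 n) ^ k ≤ (n : ℝ) ^ γ := by
  have h1 := isLittleO_log_rpow_rpow_atTop (k : ℝ) hγ
  set c : ℝ := |C / Real.log 2 ^ k| + 1 with hc
  have hc0 : 0 < c := by positivity
  have h2 := h1.def (c := c⁻¹) (by positivity)
  have h3 := (tendsto_natCast_atTop_atTop (R := ℝ)).eventually h2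
  filter_upwards [h3, eventually_ge_atTop 1] with n hn hn1
  have hn1' : (1 : ℝ) ≤ n := by exact_mod_cast hn1
  have hlog : 0 ≤ Real.log n := Real.log_nonneg hn1'
  rw [Real.rpow_natCast, Real.norm_of_nonneg (by positivity),
    Real.norm_of_nonneg (by positivity)] at hn
  have h4 : c * Real.log n ^ k ≤ (n : ℝ) ^ γ := by
    have := mul_le_mul_of_nonneg_left hn hc0.le
    rwa [← mul_assoc, mul_inv_cancel₀ hc0.ne', one_mul] at this
  calc C * Real.logb 2 n ^ k = C / Real.log 2 ^ k * Real.log n ^ k := by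
        rw [Real.logb, div_pow]
        ring
    _ ≤ c * Real.log n ^ k := by
        apply mul_le_mul_of_nonneg_right _ (by positivity)
        rw [hc]
        linarith [le_abs_self (C / Real.log 2 ^ k)]
    _ ≤ _ := h4

lemma ev_const (C γ : ℝ) (hγ : 0 < γ) : ∀ᶠ n : ℕ in atTop, C ≤ (n : ℝ) ^ γ := by
  filter_upwards [ev_log C γ hγ 0] with n hn
  simpa using hn

/-- `b ≤ x log n` gives `2 ^ b ≤ n ^ x` -/
lemma two_pow_le {n b : ℕ} (hn : 1 ≤ n) {x : ℝ} (h : (b : ℝ) ≤ x * Real.logb 2 n) :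
    (2 : ℝ) ^ b ≤ (n : ℝ) ^ x := by
  have hn0 : (0 : ℝ) < n := by exact_mod_cast hn
  calc (2 : ℝ) ^ b = 2 ^ (b : ℝ) := (Real.rpow_natCast _ _).symm
    _ ≤ 2 ^ (x * Real.logb 2 n) := Real.rpow_le_rpow_of_exponent_le (by norm_num) h
    _ = (2 ^ (Real.logb 2 (n : ℝ))) ^ x := by
        rw [mul_comm, Real.rpow_mul (by norm_num)]
    _ = (n : ℝ) ^ x := by rw [Real.rpow_logb (by norm_num) (by norm_num) hn0]

lemma free_of {n L R : ℕ} {A : LAlg n L R} {Δ : ℝ} (h : LowDegree A Δ) :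
    (∀ fl ρ ans f, A.next fl ρ ans = Act.query (Query.value f) → f.totalDegree ≤ ⌊Δ⌋₊) ∧
    ∀ fl ρ ans a x, A.next fl ρ ans = Act.query (Query.sign a x) →
      SparseOK n 20 8 a x ∧ Moves fl a :=
  ⟨fun fl ρ ans f hf => Nat.le_floor (h.1 fl ρ ans f hf), h.2⟩

/-- the asymptotic form of the lower bound -/
theorem core {β δ γ : ℝ} (hβ1 : β < 1) (hδ : 0 < δ) (hγ : 0 < γ) :
    ∀ᶠ n : ℕ in atTop, ∀ (D b L R : ℕ) (A : LAlg n L R), LowDegree A ((n : ℝ) ^ δ) →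
      WithinX A D b → (b : ℝ) ≤ β * Real.logb 2 n → A.Decides →
        (n : ℝ) ^ (3 - (β + δ + γ)) ≤ D := by
  filter_upwards [ev_log (2 ^ 43) γ hγ 3, ev_const (2 ^ 20) (1 - β) (by linarith),
    eventually_ge_atTop 1] with n h1 h2 hn
  intro D b L R A hA hW hb hdec
  have hn0 : (0 : ℝ) < n := by exact_mod_cast hn
  have hn1 : (1 : ℝ) ≤ n := by exact_mod_cast hn
  have h3 := two_pow_le hn hb
  have h4 : 2 ^ (b + 20) ≤ n := by
    have h5 : (2 : ℝ) ^ (b + 20) ≤ n := by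
      calc (2 : ℝ) ^ (b + 20) = 2 ^ b * 2 ^ 20 := pow_add _ _ _
        _ ≤ (n : ℝ) ^ β * (n : ℝ) ^ (1 - β) := mul_le_mul h3 h2 (by positivity) (by positivity)
        _ = n := by
            rw [← Real.rpow_add hn0]
            norm_num
    exact_mod_cast h5
  obtain ⟨hA1, hA2⟩ := free_of hA
  have h6 := lower_bound_freeX (r := 20) (c := 8) (by norm_num) h4 A hA1 hA2 hW hdec
  have hd : ((⌊(n : ℝ) ^ δ⌋₊ : ℕ) : ℝ) + 1 ≤ 2 * (n : ℝ) ^ δ := by
    have h7 : ((⌊(n : ℝ) ^ δ⌋₊ : ℕ) : ℝ) ≤ (n : ℝ) ^ δ := Nat.floor_le (by positivity)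
    have h8 : (1 : ℝ) ≤ (n : ℝ) ^ δ := Real.one_le_rpow hn1 hδ.le
    linarith
  have hlog : 0 ≤ Real.logb 2 (n : ℝ) := Real.logb_nonneg (by norm_num) hn1
  have h9 : (n : ℝ) ^ 3 ≤ (n : ℝ) ^ (β + δ + γ) * D := by
    calc (n : ℝ) ^ 3 ≤ 2 ^ (b + 42) * (D : ℝ) * (((⌊(n : ℝ) ^ δ⌋₊ : ℕ) : ℝ) + 1) *
          (Real.logb 2 (n : ℝ)) ^ 3 := h6
      _ ≤ 2 ^ (b + 42) * (D : ℝ) * (2 * (n : ℝ) ^ δ) * (Real.logb 2 (n : ℝ)) ^ 3 := by
          gcongr
      _ = 2 ^ b * (n : ℝ) ^ δ * (2 ^ 43 * (Real.logb 2 (n : ℝ)) ^ 3) * D := by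
          rw [pow_add]
          ring
      _ ≤ (n : ℝ) ^ β * (n : ℝ) ^ δ * (n : ℝ) ^ γ * D := by
          gcongr
      _ = _ := by
          rw [← Real.rpow_add hn0, ← Real.rpow_add hn0]
  rw [Real.rpow_sub hn0, div_le_iff₀ (by positivity), mul_comm]
  calc (n : ℝ) ^ (3 : ℝ) = (n : ℝ) ^ 3 := by
        rw [← Real.rpow_natCast]
        norm_num
    _ ≤ _ := h9

/-- `o(n ^ 2 log n)` inspected bits -/
theorem total_bound {ε : ℝ} (hε : 0 < ε) : ∃ δ : ℝ, 0 < δ ∧ ∃ n₀ : ℕ, ∀ n ≥ n₀,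
    ∀ (D B L R : ℕ) (A : LAlg n L R), LowDegree A ((n : ℝ) ^ δ) → WithinTotal A D B →
      (B : ℝ) ≤ δ * (n : ℝ) ^ 2 * Real.logb 2 n → A.Decides → (n : ℝ) ^ (3 - ε) ≤ D := by
  set e : ℝ := min ε 1 with he
  have he0 : 0 < e := lt_min hε one_pos
  have he1 : e ≤ 1 := min_le_right _ _
  have heε : e ≤ ε := min_le_left _ _
  have h := core (β := e / 4) (δ := e / 2 ^ 20) (γ := e / 4) (by linarith)
    (by positivity) (by positivity)
  obtain ⟨n₁, hn₁⟩ := eventually_atTop.1 h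
  refine ⟨e / 2 ^ 20, by positivity, max n₁ 1, fun n hn D B L R A hA hW hB hdec => ?_⟩
  have hn1 : 1 ≤ n := (le_max_right _ _).trans hn
  have hn0 : (0 : ℝ) < n := by exact_mod_cast hn1
  have hn1' : (1 : ℝ) ≤ n := by exact_mod_cast hn1
  have hlog : 0 ≤ Real.logb 2 (n : ℝ) := Real.logb_nonneg (by norm_num) hn1'
  have hb : ((2 ^ 18 * B / n ^ 2 : ℕ) : ℝ) ≤ e / 4 * Real.logb 2 n := by
    calc ((2 ^ 18 * B / n ^ 2 : ℕ) : ℝ) ≤ ((2 ^ 18 * B : ℕ) : ℝ) / ((n ^ 2 : ℕ) : ℝ) :=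
          Nat.cast_div_le
      _ = 2 ^ 18 * B / (n : ℝ) ^ 2 := by push_cast; ring
      _ ≤ 2 ^ 18 * (e / 2 ^ 20 * (n : ℝ) ^ 2 * Real.logb 2 n) / (n : ℝ) ^ 2 := by gcongr
      _ = e / 4 * Real.logb 2 n := by
          field_simp
          ring
  have h1 := hn₁ n ((le_max_left _ _).trans hn) D _ L R A hA hW.withinX hb hdec
  refine le_trans (Real.rpow_le_rpow_of_exponent_le hn1' ?_) h1
  have : e / 2 ^ 20 ≤ e / 4 := by
    apply div_le_div_of_nonneg_left he0.le (by norm_num) (by norm_num)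
  linarith

lemma withinX_of_within {n L R : ℕ} {A : LAlg n L R} {D b : ℕ} (h : A.Within D b) :
    WithinX A D b := by
  classical
  intro I hI ρ
  refine ⟨(h I hI ρ).1, ?_⟩
  have h1 : (Finset.univ.filter fun p : Fin n × Fin n => b < A.bits I ρ p.1 p.2) = ∅ := by
    rw [Finset.filter_eq_empty_iff]
    intro p _
    exact not_lt.2 ((h I hI ρ).2 p.1 p.2)
  rw [h1, Finset.card_empty]
  simp

/-- at most `β log n` bits of each weight: the lower bound -/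
theorem each_lower {β ε : ℝ} (hβ1 : β < 1) (hε : 0 < ε) :
    ∃ δ : ℝ, 0 < δ ∧ ∃ n₀ : ℕ, ∀ n ≥ n₀, ∀ (D b L R : ℕ) (A : LAlg n L R),
      LowDegree A ((n : ℝ) ^ δ) → A.Within D b → (b : ℝ) ≤ β * Real.logb 2 n → A.Decides →
        (n : ℝ) ^ (3 - β - ε) ≤ D := by
  obtain ⟨n₁, hn₁⟩ := eventually_atTop.1 (core (β := β) (δ := ε / 2) (γ := ε / 2) hβ1
    (by positivity) (by positivity))
  refine ⟨ε / 2, by positivity, n₁, fun n hn D b L R A hA hW hb hdec => ?_⟩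
  have h1 := hn₁ n hn D b L R A hA (withinX_of_within hW) hb hdec
  have h2 : 3 - β - ε = 3 - (β + ε / 2 + ε / 2) := by ring
  rw [h2]
  exact h1

lemma upAlg_low {n b D : ℕ} : LowDegree (upAlg n b 1 D) 1 := by
  classical
  constructor
  · intro fl ρ ans f hq
    unfold upAlg at hq
    simp only at hq
    split_ifs at hq
    simp only [Act.query.injEq, Query.value.injEq] at hq
    rw [← hq]
    exact_mod_cast totalDegree_poly _ _ _ _ _ _
  · intro fl ρ ans a x hq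
    exfalso
    unfold upAlg at hq
    simp only at hq
    split_ifs at hq
    simp at hq

/-- the number of value queries with `b ≥ 1` bits per weight -/
lemma upper_bits {n b : ℕ} (hn : 2 ≤ n) (hb : 1 ≤ b) :
    ∃ D L : ℕ, ∃ A : LAlg n L b, LowDegree A 1 ∧ A.Within D b ∧ A.Decides ∧
      (D : ℝ) ≤ 2 ^ 12 * (n : ℝ) ^ 3 * b * Real.logb 2 n / 2 ^ b + 2 := by
  set L' := Nat.log 2 (3 * n ^ 300) with hL'
  set F := 12 * n ^ 3 * b * L' / 2 ^ b with hF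
  have hgood : GoodF n b F := by
    right
    refine ⟨hb, ?_⟩
    have h3 := Nat.div_add_mod (12 * n ^ 3 * b * L') (2 ^ b)
    have h4 := Nat.mod_lt (12 * n ^ 3 * b * L') (show 0 < 2 ^ b by positivity)
    rw [← hF] at h3
    have : (F + 1) * 2 ^ b = 2 ^ b * F + 2 ^ b := by ring
    rw [← hL']
    omega
  refine ⟨F / 1 + 2, _, upAlg n b 1 (F / 1 + 2), upAlg_low, upAlg_within,
    upAlg_decides le_rfl hgood, ?_⟩
  have hn0 : (0 : ℝ) < n := by exact_mod_cast (by omega : 0 < n)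
  have hlog : (1 : ℝ) ≤ Real.logb 2 n := by
    rw [Real.le_logb_iff_rpow_le (by norm_num) hn0, Real.rpow_one]
    exact_mod_cast hn
  have hLle : (L' : ℝ) ≤ 302 * Real.logb 2 n := by
    have h5 : (L' : ℝ) ≤ Real.logb 2 ((3 * n ^ 300 : ℕ) : ℝ) := by
      have := Real.natLog_le_logb (3 * n ^ 300) 2
      exact_mod_cast this
    have h6 : Real.logb 2 ((3 * n ^ 300 : ℕ) : ℝ) = Real.logb 2 3 + 300 * Real.logb 2 n := by
      push_cast
      rw [Real.logb_mul (by norm_num) (by positivity), Real.logb_pow]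
      norm_num
    have h7 : Real.logb 2 3 ≤ 2 := by
      rw [Real.logb_le_iff_le_rpow (by norm_num) (by norm_num)]
      norm_num
    linarith
  have hF1 : (F : ℝ) ≤ (12 * (n : ℝ) ^ 3 * b * L') / 2 ^ b := by
    have : ((12 * n ^ 3 * b * L' / 2 ^ b : ℕ) : ℝ) ≤
        ((12 * n ^ 3 * b * L' : ℕ) : ℝ) / ((2 ^ b : ℕ) : ℝ) := Nat.cast_div_le
    rw [← hF] at this
    push_cast at this
    exact this
  have hpos : (0 : ℝ) ≤ 12 * (n : ℝ) ^ 3 * b := by positivity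
  rw [Nat.div_one]
  push_cast
  have h8 : (F : ℝ) ≤ 2 ^ 12 * (n : ℝ) ^ 3 * b * Real.logb 2 n / 2 ^ b := by
    refine hF1.trans ?_
    apply div_le_div_of_nonneg_right _ (by positivity)
    calc 12 * (n : ℝ) ^ 3 * b * L' ≤ 12 * (n : ℝ) ^ 3 * b * (302 * Real.logb 2 n) :=
          mul_le_mul_of_nonneg_left hLle hpos
      _ = 3624 * ((n : ℝ) ^ 3 * b * Real.logb 2 n) := by ring
      _ ≤ 4096 * ((n : ℝ) ^ 3 * b * Real.logb 2 n) := by
          apply mul_le_mul_of_nonneg_right (by norm_num)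
          have : (0 : ℝ) ≤ Real.logb 2 n := by linarith
          positivity
      _ = 2 ^ 12 * (n : ℝ) ^ 3 * b * Real.logb 2 n := by ring
  linarith

/-- at most `β log n` bits of each weight: the upper bound -/
theorem each_upper {β ε : ℝ} (hβ : 0 ≤ β) (hβ1 : β ≤ 1) (hε : 0 < ε) :
    ∃ n₀ : ℕ, ∀ n ≥ n₀, ∃ (D b L R : ℕ) (A : LAlg n L R), LowDegree A 1 ∧ A.Within D b ∧
      (b : ℝ) ≤ β * Real.logb 2 n ∧ A.Decides ∧ (D : ℝ) ≤ (n : ℝ) ^ (3 - β + ε) := by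
  obtain ⟨n₀, hn₀⟩ := eventually_atTop.1 ((ev_log (2 ^ 14) ε hε 2).and
    ((ev_const 8 ε hε).and (eventually_ge_atTop 2)))
  refine ⟨n₀, fun n hn => ?_⟩
  obtain ⟨h1, h2, hn2⟩ := hn₀ n hn
  have hn0 : (0 : ℝ) < n := by exact_mod_cast (by omega : 0 < n)
  have hn1 : (1 : ℝ) ≤ n := by exact_mod_cast (by omega : 1 ≤ n)
  have hlog : (1 : ℝ) ≤ Real.logb 2 n := by
    rw [Real.le_logb_iff_rpow_le (by norm_num) hn0, Real.rpow_one]
    exact_mod_cast hn2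
  have hx : 0 ≤ β * Real.logb 2 n := mul_nonneg hβ (by linarith)
  have hn3 : (n : ℝ) ^ (3 : ℝ) = (n : ℝ) ^ 3 := by
    rw [← Real.rpow_natCast]
    norm_num
  have hcube : (1 : ℝ) ≤ (n : ℝ) ^ 3 := one_le_pow₀ hn1
  set b := ⌊β * Real.logb 2 n⌋₊ with hbdef
  have hb : (b : ℝ) ≤ β * Real.logb 2 n := Nat.floor_le hx
  have hb' : β * Real.logb 2 n < b + 1 := Nat.lt_floor_add_one _
  have hpow : (n : ℝ) ^ β ≤ 2 * 2 ^ b := by
    calc (n : ℝ) ^ β = (2 ^ (Real.logb 2 (n : ℝ))) ^ β := by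
          rw [Real.rpow_logb (by norm_num) (by norm_num) hn0]
      _ = 2 ^ (β * Real.logb 2 n) := by
          rw [mul_comm, ← Real.rpow_mul (by norm_num), mul_comm]
      _ ≤ 2 ^ ((b : ℝ) + 1) := Real.rpow_le_rpow_of_exponent_le (by norm_num) hb'.le
      _ = 2 * 2 ^ b := by
          rw [Real.rpow_add (by norm_num), Real.rpow_natCast, Real.rpow_one]
          ring
  have hgoal : (n : ℝ) ^ (3 - β + ε) = (n : ℝ) ^ 3 * (n : ℝ) ^ ε / (n : ℝ) ^ β := by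
    rw [show 3 - β + ε = 3 + ε - β by ring, Real.rpow_sub hn0, Real.rpow_add hn0, hn3]
  have hβpos : (0 : ℝ) < (n : ℝ) ^ β := by positivity
  rcases Nat.eq_zero_or_pos b with h0 | h0
  · refine ⟨n ^ 3 / 1 + 2, b, _, b, upAlg n b 1 (n ^ 3 / 1 + 2), upAlg_low, upAlg_within, hb,
      upAlg_decides le_rfl (Or.inl le_rfl), ?_⟩
    rw [hgoal, le_div_iff₀ hβpos]
    rw [h0] at hpow
    have h3 : (n : ℝ) ^ β ≤ 2 := by simpa using hpow
    rw [Nat.div_one]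
    push_cast
    calc ((n : ℝ) ^ 3 + 2) * (n : ℝ) ^ β ≤ (3 * (n : ℝ) ^ 3) * 2 := by
          apply mul_le_mul _ h3 hβpos.le (by positivity)
          linarith
      _ ≤ (n : ℝ) ^ 3 * 8 := by linarith
      _ ≤ (n : ℝ) ^ 3 * (n : ℝ) ^ ε := by gcongr
  · obtain ⟨D, L, A, hA1, hA2, hA3, hD⟩ := upper_bits hn2 h0
    refine ⟨D, b, L, b, A, hA1, hA2, hb, hA3, ?_⟩
    rw [hgoal, le_div_iff₀ hβpos]
    have hbl : (b : ℝ) ≤ Real.logb 2 n := by
      calc (b : ℝ) ≤ β * Real.logb 2 n := hb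
        _ ≤ 1 * Real.logb 2 n := by
            apply mul_le_mul_of_nonneg_right hβ1 (by linarith)
        _ = _ := one_mul _
    have h2b : (0 : ℝ) < 2 ^ b := by positivity
    have h3 : (D : ℝ) ≤ 2 ^ 12 * (n : ℝ) ^ 3 * (Real.logb 2 n) ^ 2 / 2 ^ b + 2 := by
      refine hD.trans ?_
      have : 2 ^ 12 * (n : ℝ) ^ 3 * b * Real.logb 2 n ≤
          2 ^ 12 * (n : ℝ) ^ 3 * (Real.logb 2 n) ^ 2 := by
        rw [pow_two, ← mul_assoc]
        gcongr
      gcongr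
    have h4 : (2 : ℝ) ^ b ≤ (n : ℝ) ^ 3 := by
      calc (2 : ℝ) ^ b ≤ (n : ℝ) ^ β := two_pow_le (by omega) hb
        _ ≤ (n : ℝ) ^ (3 : ℝ) := Real.rpow_le_rpow_of_exponent_le hn1 (by linarith)
        _ = _ := hn3
    have hl2 : 1 ≤ (Real.logb 2 (n : ℝ)) ^ 2 := one_le_pow₀ hlog
    calc (D : ℝ) * (n : ℝ) ^ β ≤
        (2 ^ 12 * (n : ℝ) ^ 3 * (Real.logb 2 n) ^ 2 / 2 ^ b + 2) * (2 * 2 ^ b) := by
          apply mul_le_mul h3 hpow hβpos.le (by positivity)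
      _ = 2 ^ 13 * ((n : ℝ) ^ 3 * (Real.logb 2 n) ^ 2) + 4 * 2 ^ b := by
          field_simp
          ring
      _ ≤ 2 ^ 13 * ((n : ℝ) ^ 3 * (Real.logb 2 n) ^ 2) +
          4 * ((n : ℝ) ^ 3 * (Real.logb 2 n) ^ 2) := by
          have : (2 : ℝ) ^ b ≤ (n : ℝ) ^ 3 * (Real.logb 2 n) ^ 2 := by
            calc (2 : ℝ) ^ b ≤ (n : ℝ) ^ 3 * 1 := by rw [mul_one]; exact h4
              _ ≤ _ := by gcongr
          linarith
      _ ≤ (n : ℝ) ^ 3 * (2 ^ 14 * (Real.logb 2 n) ^ 2) := by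
          have : 0 ≤ (n : ℝ) ^ 3 * (Real.logb 2 n) ^ 2 := by positivity
          linarith
      _ ≤ (n : ℝ) ^ 3 * (n : ℝ) ^ ε := by gcongr

end Pool.Agent.Helper36.CR
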